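import Pool.Agent.Helper44.NE.MixBlk
import Pool.Agent.Helper83.TS.MixOneCu

/-!
# The cell blocks of a mixed configuration of case (I), scale `96000`

The block of the class `0` (three cells), with and without main cell, and the block of the cell `(1; 2)`.
-/

set_option autoImplicit false

namespace Pool.Agent.Helper83.NE

open Pool.Agent.Helper56.NE Pool.Agent.Helper95.TS Pool.Agent.Helper90.TS Pool.Agent.Helper84.TS
  Pool.Agent.Helper44.TS Pool.Agent.Helper44.NE Pool.Agent.Helper83.TS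

section

variable {c : Cu} {m0 m1 m2 : Fin 4}

theorem mxT_ok1 (h : OkU1 c) (hn : [0, m0, m1, m2].Nodup) (k : Fin 3) :
    PrC (cuF c 0 m0 m1 m2 k) (cuT c 0 m0 m1 m2 k) ∨
      AbC (cuF c 0 m0 m1 m2 k) (cuT c 0 m0 m1 m2 k) := by
  fin_cases k
  · exact prC_or (h.cell _ _ _ (by clear * - hn; revert hn; revert m0 m1 m2; decide))
  · exact prC_or (h.cell _ _ _ (by clear * - hn; revert hn; revert m0 m1 m2; decide))
  · exact prC_or (h.cell _ _ _ (by clear * - hn; revert hn; revert m0 m1 m2; decide))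

/-- **The block of the class `0`**, no main cell. -/
theorem mx1_class (h : OkU1 c) (hn : [0, m0, m1, m2].Nodup) (T0 T1 T2 : Tab)
    {M : ℝ} (hM : ∀ (o0 o1 o2 : Bool) (g0 g1 g2 : GC), NearC (cuC c 0 m0 m2 m1) g0 →
      NearC (cuC c 0 m1 m0 m2) g1 → NearC (cuC c 0 m2 m1 m0) g2 → g0.Sum → g1.Sum → g2.Sum →
      Tri o0 o1 o2 g0 g1 g2 →
      (4 * (g0.vol : ℝ) + T0.grid g0) + (4 * (g1.vol : ℝ) + T1.grid g1)
        + (4 * (g2.vol : ℝ) + T2.grid g2) ≤ M) :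
    96000 * (c.f 0 m0 + c.f 0 m1 + c.f 0 m2) + T0.real (cuC c 0 m0 m2 m1)
      + T1.real (cuC c 0 m1 m0 m2) + T2.real (cuC c 0 m2 m1 m0) ≤ M + 264 := by
  have s : ∀ a b r, [0, a, b, r].Nodup → c.X 0 a r + c.w 0 b ≤ 20 ∨ c.X 0 b r + c.w 0 a ≤ 20 := by
    intro a b r hab
    rcases h.sp a b r hab with k | k
    · left; linarith
    · right; linarith
  have k := class96 (c := cuT c 0 m0 m1 m2) (f := cuF c 0 m0 m1 m2) (mxT_ok1 h hn)
    (s m0 m1 m2 hn)
    (s m1 m2 m0 (by clear * - hn; revert hn; revert m0 m1 m2; decide))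
    (s m2 m0 m1 (by clear * - hn; revert hn; revert m0 m1 m2; decide)) ![T0, T1, T2] (M := M)
    (fun o0 o1 o2 g h1 h2 h3 => by
      have := hM o0 o1 o2 (g 0) (g 1) (g 2) (h1 0) (h1 1) (h1 2) (h2 0) (h2 1) (h2 2) h3
      rw [Fin.sum_univ_three]
      exact this)
  rw [Fin.sum_univ_three] at k
  have k' : (96000 * c.f 0 m0 + T0.real (cuC c 0 m0 m2 m1)) +
    (96000 * c.f 0 m1 + T1.real (cuC c 0 m1 m0 m2)) +
    (96000 * c.f 0 m2 + T2.real (cuC c 0 m2 m1 m0)) ≤ M + 264 := k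
  linarith

/-- **The main alternative of the class `0`**: `4800 β` per unit of width. -/
theorem mx1_main (h : OkU1 c) (hn : [0, m0, m1, m2].Nodup) (T0 T1 T2 : Tab)
    {α β M0 M1 M2 : ℝ} (hp : MajPair α β) (hmf : c.mf 0 ≠ 0)
    (hM0 : ∀ g, NearC (cuC c 0 m0 m2 m1) g → g.Sum →
      4 * (g.vol : ℝ) + T0.grid g - 4800 * β * (max g.w 0 : ℤ) ≤ M0)
    (hM1 : ∀ g, NearC (cuC c 0 m1 m0 m2) g → g.Sum →
      4 * (g.vol : ℝ) + T1.grid g - 4800 * β * (max g.w 0 : ℤ) ≤ M1)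
    (hM2 : ∀ g, NearC (cuC c 0 m2 m1 m0) g → g.Sum →
      4 * (g.vol : ℝ) + T2.grid g - 4800 * β * (max g.w 0 : ℤ) ≤ M2) :
    96000 * (c.mf 0 + c.f 0 m0 + c.f 0 m1 + c.f 0 m2) + T0.real (cuC c 0 m0 m2 m1)
      + T1.real (cuC c 0 m1 m0 m2) + T2.real (cuC c 0 m2 m1 m0) ≤
      96000 * α + M0 + M1 + M2 + 264 := by
  have k := class96_free (c := cuT c 0 m0 m1 m2) (f := cuF c 0 m0 m1 m2) (mxT_ok1 h hn)
    ![T0, T1, T2] (4800 * β) (M := ![M0, M1, M2]) (fun k g => by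
      fin_cases k
      · exact hM0 g
      · exact hM1 g
      · exact hM2 g)
  rw [Fin.sum_univ_three, Fin.sum_univ_three] at k
  have k' : (96000 * c.f 0 m0 + T0.real (cuC c 0 m0 m2 m1) - 4800 * β * max (c.w 0 m0) 0) +
    (96000 * c.f 0 m1 + T1.real (cuC c 0 m1 m0 m2) - 4800 * β * max (c.w 0 m1) 0) +
    (96000 * c.f 0 m2 + T2.real (cuC c 0 m2 m1 m0) - 4800 * β * max (c.w 0 m2) 0) ≤
    M0 + M1 + M2 + 264 := k
  rcases h.main m0 m1 m2 hn with e | ⟨δ, p, q, s, d1, d2, ⟨p1, p2⟩, ⟨q1, q2⟩, ⟨s1, s2⟩, hs, hf, a0, a1, a2⟩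
  · exact absurd e hmf
  · have tt : ∀ {w a : ℝ}, (w = -20 ∨ w ≤ 20 * (δ - a)) → max w 0 / 20 ≤ max (δ - a) 0 := by
      intro w a hw
      have h0 := le_max_right (δ - a) 0
      have h1 := le_max_left (δ - a) 0
      rcases le_total w 0 with w0 | w0
      · rw [max_eq_right w0]
        linarith
      · rw [max_eq_left w0]
        rcases hw with rfl | hw
        · norm_num at w0
        · linarith
    have m := (main_low hp d1 d2.le p1 p2 q1 q2 s1 s2 hs (tt a0) (tt a1) (tt a2)).1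
    rw [← hf] at m
    have m' : 96000 * c.mf 0 ≤ 96000 * α - 4800 * β * (max (c.w 0 m0) 0 + max (c.w 0 m1) 0
        + max (c.w 0 m2) 0) := by
      have := mul_le_mul_of_nonneg_left m (show (0 : ℝ) ≤ 96000 by norm_num)
      refine this.trans (le_of_eq ?_)
      ring
    linarith

/-- **The block of the cell `(1; 2)`.** -/
theorem mx1_far (h : OkU1 c) (T : Tab) {M : ℝ}
    (hM : ∀ g, NearC (cuC c 1 2 0 3) g → g.Sum → 4 * (g.vol : ℝ) + T.grid g ≤ M) :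
    96000 * c.f 1 2 + T.real (cuC c 1 2 0 3) ≤ M + 88 :=
  one96 (Or.inl (prC_of h.tf)) T hM

end

end Pool.Agent.Helper83.NE
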