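import Pool.Agent.Helper58.TS.Eng.Feat1

/-!
# `MixedI`: the nodes and the boxes of the slots
-/

set_option autoImplicit false

namespace Pool.Agent.Helper83.NE

open Pool.Agent.Helper62.NE Pool.Agent.Helper95.TS Pool.Agent.Helper53.NE Pool.Agent.Helper90.TS
  Pool.Agent.Helper83.TS Pool.Agent.Helper58.Eng

section

variable {c : Cu}

theorem f0 (h : c.v 2 1 ≤ 20 - c.X 0 1 2) : Sm1.Q c 0 0 :=
  q0 (k := 0) rfl (by norm_num [cv, s1]; linarith)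

theorem f1 (h : c.v 3 1 ≤ 20 - c.X 0 1 3) : Sm1.Q c 0 1 :=
  q0 (k := 1) rfl (by norm_num [cv, s1]; linarith)

theorem f2 (h : c.v 3 2 ≤ 20 - c.X 0 2 3) : Sm1.Q c 0 2 :=
  q0 (k := 2) rfl (by norm_num [cv, s1]; linarith)

theorem f3 (h : c.v 2 3 ≤ 20 - c.X 0 3 2) : Sm1.Q c 0 3 :=
  q0 (k := 3) rfl (by norm_num [cv, s1]; linarith)

theorem f4 (h : c.v 3 2 ≤ 20 - c.X 1 2 3) : Sm1.Q c 0 4 :=
  q0 (k := 4) rfl (by norm_num [cv, s1]; linarith)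

theorem f5 (h : c.v 1 3 ≤ 20 - c.X 0 3 1) : Sm1.Q c 0 5 :=
  q0 (k := 5) rfl (by norm_num [cv, s1]; linarith)

theorem f6 (h : c.w 1 2 ≤ -c.v 1 2) : Sm1.Q c 0 6 :=
  q0 (k := 6) rfl (by norm_num [cv, s1]; linarith)

theorem f7 (h : c.X 0 3 1 ≤ 40 - c.X 1 2 0) : Sm1.Q c 0 7 :=
  q0 (k := 7) rfl (by norm_num [cv, s1]; linarith)

theorem f8 (h : c.v 2 1 + c.v 2 3 ≤ c.D 0 1) : Sm1.Q c 0 8 :=
  q0 (k := 8) rfl (by norm_num [cv, s1]; linarith)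

theorem f9 (h : c.v 3 2 + c.v 3 1 ≤ c.D 0 1) : Sm1.Q c 0 9 :=
  q0 (k := 9) rfl (by norm_num [cv, s1]; linarith)

theorem f10 (h : c.v 3 2 + c.v 3 1 ≤ c.D 0 2) : Sm1.Q c 0 10 :=
  q0 (k := 10) rfl (by norm_num [cv, s1]; linarith)

theorem f11 (h : c.v 2 1 + c.v 2 3 ≤ c.D 0 3) : Sm1.Q c 0 11 :=
  q0 (k := 11) rfl (by norm_num [cv, s1]; linarith)

theorem f12 (h : c.v 3 0 + c.v 3 2 ≤ c.D 1 2) : Sm1.Q c 0 12 :=
  q0 (k := 12) rfl (by norm_num [cv, s1]; linarith)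

theorem f13 (h : c.v 1 3 + c.v 1 2 ≤ c.D 0 3) : Sm1.Q c 0 13 :=
  q0 (k := 13) rfl (by norm_num [cv, s1]; linarith)

theorem f14 (h : 20 - c.X 0 1 2 ≤ c.v 2 1) : Sm1.Q c 0 14 :=
  q0 (k := 14) rfl (by norm_num [cv, s1]; linarith)

theorem f15 (h : 20 - c.X 0 1 3 ≤ c.v 3 1) : Sm1.Q c 0 15 :=
  q0 (k := 15) rfl (by norm_num [cv, s1]; linarith)

theorem f16 (h : 20 - c.X 0 2 3 ≤ c.v 3 2) : Sm1.Q c 0 16 :=
  q0 (k := 16) rfl (by norm_num [cv, s1]; linarith)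

theorem f17 (h : 20 - c.X 0 3 2 ≤ c.v 2 3) : Sm1.Q c 0 17 :=
  q0 (k := 17) rfl (by norm_num [cv, s1]; linarith)

theorem f18 (h : 20 - c.X 1 2 3 ≤ c.v 3 2) : Sm1.Q c 0 18 :=
  q0 (k := 18) rfl (by norm_num [cv, s1]; linarith)

theorem f19 (h : 20 - c.X 0 3 1 ≤ c.v 1 3) : Sm1.Q c 0 19 :=
  q0 (k := 19) rfl (by norm_num [cv, s1]; linarith)

theorem f20 (h : c.v 2 3 ≤ -c.v 1 0) : Sm1.Q c 0 20 :=
  q0 (k := 20) rfl (by norm_num [cv, s1]; linarith)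

theorem f21 (h : c.v 2 0 ≤ -c.v 1 3) : Sm1.Q c 0 21 :=
  q0 (k := 21) rfl (by norm_num [cv, s1]; linarith)

theorem f22 (h : c.v 3 2 ≤ -c.v 1 0) : Sm1.Q c 0 22 :=
  q0 (k := 22) rfl (by norm_num [cv, s1]; linarith)

theorem f23 (h : c.v 3 0 ≤ -c.v 1 2) : Sm1.Q c 0 23 :=
  q0 (k := 23) rfl (by norm_num [cv, s1]; linarith)

theorem f24 (h : c.X 0 2 1 ≤ c.D 1 2) : Sm1.Q c 0 24 :=
  q0 (k := 24) rfl (by norm_num [cv, s1]; linarith)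

theorem f25 (h : c.X 1 2 0 ≤ c.D 0 2) : Sm1.Q c 0 25 :=
  q0 (k := 25) rfl (by norm_num [cv, s1]; linarith)

theorem f26 (h : c.v 3 0 ≤ -c.v 2 1) : Sm1.Q c 0 26 :=
  q0 (k := 26) rfl (by norm_num [cv, s1]; linarith)

theorem f27 (h : c.v 2 0 ≤ -c.v 3 1) : Sm1.Q c 0 27 :=
  q0 (k := 27) rfl (by norm_num [cv, s1]; linarith)

theorem g0 (h : (0 : ℝ) ≤ -(c.v 2 1) - (c.X 0 1 2) + 20) : Sm1.Q c 1 0 :=
  q1 (k := 0) rfl (by norm_num [s1]; linarith)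

theorem g1 (h : (0 : ℝ) ≤ -(c.v 3 1) - (c.X 0 1 3) + 20) : Sm1.Q c 1 1 :=
  q1 (k := 1) rfl (by norm_num [s1]; linarith)

theorem g2 (h : (0 : ℝ) ≤ -(c.v 3 2) - (c.X 0 2 3) + 20) : Sm1.Q c 1 2 :=
  q1 (k := 2) rfl (by norm_num [s1]; linarith)

theorem g3 (h : (0 : ℝ) ≤ -(c.v 2 3) - (c.X 0 3 2) + 20) : Sm1.Q c 1 3 :=
  q1 (k := 3) rfl (by norm_num [s1]; linarith)

theorem g4 (h : (0 : ℝ) ≤ -(c.v 3 2) - (c.X 1 2 3) + 20) : Sm1.Q c 1 4 :=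
  q1 (k := 4) rfl (by norm_num [s1]; linarith)

theorem g5 (h : (0 : ℝ) ≤ -(c.v 1 3) - (c.X 0 3 1) + 20) : Sm1.Q c 1 5 :=
  q1 (k := 5) rfl (by norm_num [s1]; linarith)

theorem g6 (h : (0 : ℝ) ≤ -(c.v 1 2) - (c.w 1 2)) : Sm1.Q c 1 6 :=
  q1 (k := 6) rfl (by norm_num [s1]; linarith)

theorem g7 (h : (0 : ℝ) ≤ -(c.X 1 2 0) - (c.X 0 3 1) + 40) : Sm1.Q c 1 7 :=
  q1 (k := 7) rfl (by norm_num [s1]; linarith)

theorem g8 (h : (0 : ℝ) ≤ -(c.v 2 1) - (c.v 2 3) + (c.v 2 0) + 2 * (c.D 0 1) - 20) : Sm1.Q c 1 8 :=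
  q1 (k := 8) rfl (by norm_num [s1]; linarith)

theorem g9 (h : (0 : ℝ) ≤ -(c.v 3 1) - (c.v 3 2) + (c.v 3 0) + 2 * (c.D 0 1) - 20) : Sm1.Q c 1 9 :=
  q1 (k := 9) rfl (by norm_num [s1]; linarith)

theorem g10 (h : (0 : ℝ) ≤ -(c.v 3 2) - (c.v 3 1) + (c.v 3 0) + 2 * (c.D 0 2) - 20) : Sm1.Q c 1 10 :=
  q1 (k := 10) rfl (by norm_num [s1]; linarith)

theorem g11 (h : (0 : ℝ) ≤ -(c.v 2 3) - (c.v 2 1) + (c.v 2 0) + 2 * (c.D 0 3) - 20) : Sm1.Q c 1 11 :=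
  q1 (k := 11) rfl (by norm_num [s1]; linarith)

theorem g12 (h : (0 : ℝ) ≤ -(c.v 3 2) - (c.v 3 0) + (c.v 3 1) + 2 * (c.D 1 2) - 20) : Sm1.Q c 1 12 :=
  q1 (k := 12) rfl (by norm_num [s1]; linarith)

theorem g13 (h : (0 : ℝ) ≤ -(c.v 1 3) - (c.v 1 2) + (c.v 1 0) + 2 * (c.D 0 3) - 20) : Sm1.Q c 1 13 :=
  q1 (k := 13) rfl (by norm_num [s1]; linarith)

theorem g14 (h : (0 : ℝ) ≤ (c.v 2 1) + (c.X 0 1 2) - 20) : Sm1.Q c 1 14 :=
  q1 (k := 14) rfl (by norm_num [s1]; linarith)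

theorem g15 (h : (0 : ℝ) ≤ (c.v 3 1) + (c.X 0 1 3) - 20) : Sm1.Q c 1 15 :=
  q1 (k := 15) rfl (by norm_num [s1]; linarith)

theorem g16 (h : (0 : ℝ) ≤ (c.v 3 2) + (c.X 0 2 3) - 20) : Sm1.Q c 1 16 :=
  q1 (k := 16) rfl (by norm_num [s1]; linarith)

theorem g17 (h : (0 : ℝ) ≤ (c.v 2 3) + (c.X 0 3 2) - 20) : Sm1.Q c 1 17 :=
  q1 (k := 17) rfl (by norm_num [s1]; linarith)

theorem g18 (h : (0 : ℝ) ≤ (c.v 3 2) + (c.X 1 2 3) - 20) : Sm1.Q c 1 18 :=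
  q1 (k := 18) rfl (by norm_num [s1]; linarith)

theorem g19 (h : (0 : ℝ) ≤ (c.v 1 3) + (c.X 0 3 1) - 20) : Sm1.Q c 1 19 :=
  q1 (k := 19) rfl (by norm_num [s1]; linarith)

theorem g20 (h : (0 : ℝ) ≤ (20 - c.e 2) - (20 - c.e 1) - 2 * (c.v 2 3 + c.v 2 0)) : Sm1.Q c 1 20 :=
  q1 (k := 20) rfl (by norm_num [s1]; linarith)

theorem g21 (h : (0 : ℝ) ≤ (20 - c.e 3) - (20 - c.e 1) - 2 * (c.v 3 0 + c.v 3 2)) : Sm1.Q c 1 21 :=
  q1 (k := 21) rfl (by norm_num [s1]; linarith)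

theorem g22 (h : (0 : ℝ) ≤ 2 * (c.v 1 3) - (20 - c.e 1) - (20 - c.e 3)) : Sm1.Q c 1 22 :=
  q1 (k := 22) rfl (by norm_num [s1]; linarith)

theorem g24 (h : (0 : ℝ) ≤ (c.w 1 2) - (c.w 0 2)) : Sm1.Q c 1 24 :=
  q1 (k := 24) rfl (by norm_num [s1]; linarith)

theorem g25 (h : (0 : ℝ) ≤ (c.D 1 2) + (c.w 1 2) - (c.X 0 2 1) - 20) : Sm1.Q c 1 25 :=
  q1 (k := 25) rfl (by norm_num [s1]; linarith)

theorem g26 (h : (0 : ℝ) ≤ (c.D 0 2) + (c.w 1 2) - (c.X 1 2 0) - 20) : Sm1.Q c 1 26 :=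
  q1 (k := 26) rfl (by norm_num [s1]; linarith)

theorem g27 (h : (0 : ℝ) ≤ -(c.w 1 2) + (c.w 0 2)) : Sm1.Q c 1 27 :=
  q1 (k := 27) rfl (by norm_num [s1]; linarith)

theorem g28 (h : (0 : ℝ) ≤ (c.D 1 2) + (c.w 0 2) - (c.X 0 2 1) - 20) : Sm1.Q c 1 28 :=
  q1 (k := 28) rfl (by norm_num [s1]; linarith)

theorem g29 (h : (0 : ℝ) ≤ (c.D 0 2) + (c.w 0 2) - (c.X 1 2 0) - 20) : Sm1.Q c 1 29 :=
  q1 (k := 29) rfl (by norm_num [s1]; linarith)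

theorem g30 (h : (0 : ℝ) ≤ 25 * (20 - c.e 2) + 25 * (20 - c.e 3) - 764) : Sm1.Q c 1 30 :=
  q1 (k := 30) rfl (by norm_num [s1]; linarith)

theorem g31 (h : (0 : ℝ) ≤ 2 * (c.v 3 2) - (20 - c.e 3) - (20 - c.e 2)) : Sm1.Q c 1 31 :=
  q1 (k := 31) rfl (by norm_num [s1]; linarith)

theorem g32 (h : (0 : ℝ) ≤ 2 * (c.v 2 3) - (20 - c.e 2) - (20 - c.e 3)) : Sm1.Q c 1 32 :=
  q1 (k := 32) rfl (by norm_num [s1]; linarith)

theorem g33 (h : (0 : ℝ) ≤ -2 * (c.v 3 0) + (20 - c.e 3) + 2 * (c.v 2 0) - (20 - c.e 2)) : Sm1.Q c 1 33 :=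
  q1 (k := 33) rfl (by norm_num [s1]; linarith)

theorem g34 (h : (0 : ℝ) ≤ -2 * (c.v 2 0) + (20 - c.e 2) + 2 * (c.v 3 0) - (20 - c.e 3)) : Sm1.Q c 1 34 :=
  q1 (k := 34) rfl (by norm_num [s1]; linarith)

theorem g35 (h : (0 : ℝ) ≤ -2 * (c.v 3 1) + (20 - c.e 3) + 2 * (c.v 2 1) - (20 - c.e 2)) : Sm1.Q c 1 35 :=
  q1 (k := 35) rfl (by norm_num [s1]; linarith)

theorem g36 (h : (0 : ℝ) ≤ -2 * (c.v 2 1) + (20 - c.e 2) + 2 * (c.v 3 1) - (20 - c.e 3)) : Sm1.Q c 1 36 :=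
  q1 (k := 36) rfl (by norm_num [s1]; linarith)

theorem dj1_big (k : ℕ) : dj1 (k + 16) = ([], [[]]) := rfl

/-- the cell `(0; m)` is present or absent -/
theorem cell_or (h : OkU1 c) {m r z : Fin 4} (hn : [0, m, r, z].Nodup) :
    (0 ≤ c.w 0 m ∧ c.D 0 m ≤ 20 ∧ c.w 0 m ≤ 20 ∧ 0 ≤ c.X 0 m r ∧ 0 ≤ c.X 0 m z ∧ 0 ≤ c.D 0 m ∧
      c.X 0 m r + c.X 0 m z = 20 + c.w 0 m - c.D 0 m) ∨
    (c.w 0 m = -20 ∧ c.X 0 m r = 0 ∧ c.X 0 m z = 0 ∧ c.D 0 m = 40) := by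
  rcases h.cell m r z hn with k | k
  · exact Or.inl ⟨k.w0.le, k.D1.le, k.w1, k.X0.le, k.Y0.le, k.D0, k.sum⟩
  · exact Or.inr ⟨k.w, k.X, k.Y, k.D⟩

/-- kind A, the two forms -/
theorem kd_A (h : OkU1 c) {i m r z : Fin 4} (hi : i = 0 ∨ i = 1) (hr : r = 2 ∨ r = 3)
    (hn : [i, m, r, z].Nodup) (hk : ¬ c.KB i m r z) : c.v r m ≤ 20 - c.X i m r :=
  (h.kd i m r z hi hr hn).resolve_right hk

theorem tall_A (h : OkU1 c) (hk : ¬ c.KB 0 3 1 2) : c.v 1 3 ≤ 20 - c.X 0 3 1 :=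
  h.tr.resolve_right hk

theorem w_up {s t : ℕ} (h : s1 c s ≤ (t : ℝ) - 20) : (Atom.up s t).Holds Sm1 c := h

theorem w_lo {s t : ℕ} (h : (t : ℝ) - 20 ≤ s1 c s) : (Atom.lw s t).Holds Sm1 c := h

/-- **The nodes.** -/
theorem dj1_ok (h : OkU1 c) : ∀ k, Hs Sm1 c (dj1 k).1 → Ex Sm1 c (dj1 k).2
  | 0, _ => by
    have s2 := h.vs 2 0 1 3 (Or.inl rfl) (by decide)
    have s3 := h.vs 3 0 1 2 (Or.inr rfl) (by decide)
    rcases h.pair with ⟨a1, a2, a3⟩ | ⟨a1, a2, a3⟩ | ⟨a1, a2, a3⟩ | ⟨a1, a2, a3⟩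
    · exact Or.inl ⟨f26 (by linarith), g33 (by linarith), g36 (by linarith), trivial⟩
    · exact Or.inr (Or.inl ⟨f27 (by linarith), g34 (by linarith), g35 (by linarith), trivial⟩)
    · exact Or.inr (Or.inr (Or.inl ⟨g31 (by linarith), g33 (by linarith), g35 (by linarith), trivial⟩))
    · exact Or.inr (Or.inr (Or.inr (Or.inl ⟨g32 (by linarith), g34 (by linarith), g36 (by linarith),
        trivial⟩)))
  | 1, _ => by
    have s2 := h.vs 2 0 1 3 (Or.inl rfl) (by decide)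
    have e2 := h.e0 2 (Or.inl rfl)
    rcases h.kd 0 1 2 3 (Or.inl rfl) (Or.inl rfl) (by decide) with k | k
    · exact Or.inl ⟨f0 (by linarith), g0 (by linarith), trivial⟩
    · have a1 := kd_A h (Or.inl rfl) (Or.inr rfl) (by decide)
        (h.f1 0 1 2 3 (Or.inl rfl) (Or.inl rfl) (Or.inr rfl) (by decide) k)
      have a2 := kd_A h (Or.inl rfl) (Or.inl rfl) (by decide) (h.f2 1 2 3 (Or.inl rfl) (by decide) k)
      have lo := k.lo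
      have vi := k.vi
      have pr := k.pr
      rcases cell_or h (m := 1) (r := 2) (z := 3) (by decide) with p | p
      · exact Or.inr (Or.inl ⟨f8 (by linarith), g8 (by linarith), f14 (by linarith),
          g14 (by linarith), w_lo (s := 12) (t := 20) (by show (((20 : ℕ) : ℝ)) - 20 ≤ c.w 0 1; push_cast; linarith),
          w_up (s := 15) (t := 40) (by show c.D 0 1 ≤ ((40 : ℕ) : ℝ) - 20; push_cast; linarith),
          w_up (s := 3) (t := 40) (by show c.v 2 1 + c.v 2 3 ≤ ((40 : ℕ) : ℝ) - 20; push_cast; linarith),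
          f1 (by linarith), g1 (by linarith), f3 (by linarith), g3 (by linarith), trivial⟩)
      · linarith [p.2.2.2]
  | 2, _ => by
    have s3 := h.vs 3 0 1 2 (Or.inr rfl) (by decide)
    have e3 := h.e0 3 (Or.inr rfl)
    rcases h.kd 0 1 3 2 (Or.inl rfl) (Or.inr rfl) (by decide) with k | k
    · exact Or.inl ⟨f1 (by linarith), g1 (by linarith), trivial⟩
    · have a1 := kd_A h (Or.inl rfl) (Or.inl rfl) (by decide)
        (h.f1 0 1 3 2 (Or.inl rfl) (Or.inr rfl) (Or.inl rfl) (by decide) k)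
      have a2 := kd_A h (Or.inl rfl) (Or.inr rfl) (by decide) (h.f2 1 3 2 (Or.inr rfl) (by decide) k)
      have lo := k.lo
      have vi := k.vi
      have pr := k.pr
      rcases cell_or h (m := 1) (r := 2) (z := 3) (by decide) with p | p
      · exact Or.inr (Or.inl ⟨f9 (by linarith), g9 (by linarith), f15 (by linarith),
          g15 (by linarith), w_lo (s := 12) (t := 20) (by show (((20 : ℕ) : ℝ)) - 20 ≤ c.w 0 1; push_cast; linarith),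
          w_up (s := 15) (t := 40) (by show c.D 0 1 ≤ ((40 : ℕ) : ℝ) - 20; push_cast; linarith),
          w_up (s := 10) (t := 40) (by show c.v 3 2 + c.v 3 1 ≤ ((40 : ℕ) : ℝ) - 20; push_cast; linarith),
          f0 (by linarith), g0 (by linarith), f2 (by linarith), g2 (by linarith), trivial⟩)
      · linarith [p.2.2.2]
  | 3, _ => by
    have s3 := h.vs 3 0 1 2 (Or.inr rfl) (by decide)
    have e3 := h.e0 3 (Or.inr rfl)
    rcases h.kd 0 2 3 1 (Or.inl rfl) (Or.inr rfl) (by decide) with k | k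
    · exact Or.inl ⟨f2 (by linarith), g2 (by linarith), trivial⟩
    · have a2 := kd_A h (Or.inl rfl) (Or.inr rfl) (by decide) (h.f2 2 3 1 (Or.inr rfl) (by decide) k)
      have lo := k.lo
      have vi := k.vi
      have pr := k.pr
      rcases cell_or h (m := 2) (r := 1) (z := 3) (by decide) with p | p
      · exact Or.inr (Or.inl ⟨f10 (by linarith), g10 (by linarith), f16 (by linarith),
          g16 (by linarith), w_lo (s := 16) (t := 20) (by show (((20 : ℕ) : ℝ)) - 20 ≤ c.w 0 2; push_cast; linarith),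
          w_up (s := 19) (t := 40) (by show c.D 0 2 ≤ ((40 : ℕ) : ℝ) - 20; push_cast; linarith),
          w_up (s := 10) (t := 40) (by show c.v 3 2 + c.v 3 1 ≤ ((40 : ℕ) : ℝ) - 20; push_cast; linarith),
          f1 (by linarith), g1 (by linarith), trivial⟩)
      · linarith [p.2.2.2]
  | 4, _ => by
    have s2 := h.vs 2 0 1 3 (Or.inl rfl) (by decide)
    have e2 := h.e0 2 (Or.inl rfl)
    rcases h.kd 0 3 2 1 (Or.inl rfl) (Or.inl rfl) (by decide) with k | k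
    · exact Or.inl ⟨f3 (by linarith), g3 (by linarith), trivial⟩
    · have a2 := kd_A h (Or.inl rfl) (Or.inl rfl) (by decide) (h.f2 3 2 1 (Or.inl rfl) (by decide) k)
      have a3 := tall_A h fun k' => h.tf1 k' k
      have lo := k.lo
      have vi := k.vi
      have pr := k.pr
      rcases cell_or h (m := 3) (r := 1) (z := 2) (by decide) with p | p
      · exact Or.inr (Or.inl ⟨f11 (by linarith), g11 (by linarith), f17 (by linarith),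
          g17 (by linarith), w_lo (s := 20) (t := 20) (by show (((20 : ℕ) : ℝ)) - 20 ≤ c.w 0 3; push_cast; linarith),
          w_up (s := 23) (t := 40) (by show c.D 0 3 ≤ ((40 : ℕ) : ℝ) - 20; push_cast; linarith),
          w_up (s := 3) (t := 40) (by show c.v 2 1 + c.v 2 3 ≤ ((40 : ℕ) : ℝ) - 20; push_cast; linarith),
          f0 (by linarith), g0 (by linarith), f5 (by linarith), g5 (by linarith), trivial⟩)
      · linarith [p.2.2.2]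
  | 5, _ => by
    have s3 := h.vs 3 0 1 2 (Or.inr rfl) (by decide)
    have e3 := h.e0 3 (Or.inr rfl)
    rcases h.kd 1 2 3 0 (Or.inr rfl) (Or.inr rfl) (by decide) with k | k
    · exact Or.inl ⟨f4 (by linarith), g4 (by linarith), trivial⟩
    · have lo := k.lo
      have vi := k.vi
      have pr := k.pr
      exact Or.inr (Or.inl ⟨f12 (by linarith), g12 (by linarith), f18 (by linarith),
        g18 (by linarith),
        w_up (s := 9) (t := 40) (by show c.v 3 0 + c.v 3 2 ≤ ((40 : ℕ) : ℝ) - 20; push_cast; linarith),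
        trivial⟩)
  | 6, _ => by
    have stu := h.tu
    have e1 := h.te.1
    rcases h.tr with k | k
    · exact Or.inl ⟨f5 (by linarith), g5 (by linarith), trivial⟩
    · have a2 := kd_A h (Or.inl rfl) (Or.inl rfl) (by decide) (h.tf1 k)
      have lo := k.lo
      have vi := k.vi
      have pr := k.pr
      rcases cell_or h (m := 3) (r := 1) (z := 2) (by decide) with p | p
      · exact Or.inr (Or.inl ⟨f13 (by linarith), g13 (by linarith), f19 (by linarith),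
          g19 (by linarith), w_lo (s := 20) (t := 20) (by show (((20 : ℕ) : ℝ)) - 20 ≤ c.w 0 3; push_cast; linarith),
          w_up (s := 23) (t := 40) (by show c.D 0 3 ≤ ((40 : ℕ) : ℝ) - 20; push_cast; linarith),
          w_up (s := 32) (t := 40) (by show c.v 1 3 + c.v 1 2 ≤ ((40 : ℕ) : ℝ) - 20; push_cast; linarith),
          f3 (by linarith), g3 (by linarith), trivial⟩)
      · linarith [p.2.2.2]
  | 7, _ => by
    rcases h.tc with k | k | k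
    · exact Or.inl ⟨g20 (by linarith [k.2.2]), trivial⟩
    · exact Or.inr (Or.inl ⟨f20 (by linarith [k.2.2]), trivial⟩)
    · exact Or.inr (Or.inr (Or.inl ⟨f21 (by linarith [k.2.2]), trivial⟩))
  | 8, _ => by
    rcases h.cs with k | k
    · exact Or.inl ⟨f24 k, trivial⟩
    · exact Or.inr (Or.inl ⟨f25 k, trivial⟩)
  | 9, _ => by
    by_cases k : c.mf 0 = 0
    · exact Or.inl ⟨k, trivial⟩
    · exact Or.inr (Or.inl ⟨k, trivial⟩)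
  | 10, _ => by
    have k1 := h.tw.2.1
    have k2 := h.cr
    have k3 := h.es
    exact Or.inl ⟨f6 (by linarith), g6 (by linarith), f7 (by linarith), g7 (by linarith),
      g30 (by linarith), trivial⟩
  | 11, _ => by
    have stu := h.tu
    rcases h.tl with k | k | k | k
    · exact Or.inl ⟨g21 (by linarith [k.2.2]), trivial⟩
    · exact Or.inr (Or.inl ⟨g22 (by linarith [k.2.2]), trivial⟩)
    · exact Or.inr (Or.inr (Or.inl ⟨f22 (by linarith [k.2.2]), trivial⟩))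
    · exact Or.inr (Or.inr (Or.inr (Or.inl ⟨f23 (by linarith [k.2.2]), trivial⟩)))
  | 12, _ => by
    have t := h.tf
    have t1 := t.w1
    have t2 := t.D0
    have t3 := t.sum
    have t4 := t.Y0
    have p := cell_or h (m := 2) (r := 1) (z := 3) (by decide)
    rcases h.cf with k | ⟨k1, k2⟩ | ⟨k1, k2⟩ | ⟨k1, k2⟩ | ⟨k1, k2⟩
    · rcases p with p | p
      · linarith [p.1]
      · exact Or.inl ⟨w_up (s := 16) (t := 0) (by show c.w 0 2 ≤ ((0 : ℕ) : ℝ) - 20; push_cast; linarith),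
          f24 (by linarith [p.2.1]), f25 (by linarith [p.2.2.2]), trivial⟩
    · exact Or.inr (Or.inl ⟨g24 (by linarith), g25 (by linarith), f24 (by linarith), trivial⟩)
    · exact Or.inr (Or.inr (Or.inl ⟨g24 (by linarith), g26 (by linarith), f25 (by linarith), trivial⟩))
    · have w2 : c.w 0 2 ≤ 20 := by
        rcases p with p | p
        · exact p.2.2.1
        · linarith [p.1]
      exact Or.inr (Or.inr (Or.inr (Or.inl ⟨g27 (by linarith), g28 (by linarith), f24 (by linarith),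
        trivial⟩)))
    · have w2 : c.w 0 2 ≤ 20 := by
        rcases p with p | p
        · exact p.2.2.1
        · linarith [p.1]
      exact Or.inr (Or.inr (Or.inr (Or.inr (Or.inl ⟨g27 (by linarith), g29 (by linarith),
        f25 (by linarith), trivial⟩))))
  | 13, _ => by
    rcases cell_or h (m := 1) (r := 2) (z := 3) (by decide) with p | ⟨p1, p2, p3, p4⟩
    · exact Or.inr (Or.inl ⟨w_lo (s := 12) (t := 20) (by show (((20 : ℕ) : ℝ)) - 20 ≤ c.w 0 1; push_cast; linarith [p.1]),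
        w_up (s := 15) (t := 40) (by show c.D 0 1 ≤ ((40 : ℕ) : ℝ) - 20; push_cast; linarith [p.2.1]), trivial⟩)
    · exact Or.inl ⟨w_up (s := 12) (t := 0) (by show c.w 0 1 ≤ ((0 : ℕ) : ℝ) - 20; push_cast; linarith),
        w_up (s := 13) (t := 20) (by show c.X 0 1 2 ≤ ((20 : ℕ) : ℝ) - 20; push_cast; linarith),
        w_up (s := 14) (t := 20) (by show c.X 0 1 3 ≤ ((20 : ℕ) : ℝ) - 20; push_cast; linarith),
        w_lo (s := 15) (t := 60) (by show (((60 : ℕ) : ℝ)) - 20 ≤ c.D 0 1; push_cast; linarith), trivial⟩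
  | 14, _ => by
    rcases cell_or h (m := 2) (r := 1) (z := 3) (by decide) with p | ⟨p1, p2, p3, p4⟩
    · exact Or.inr (Or.inl ⟨w_lo (s := 16) (t := 20) (by show (((20 : ℕ) : ℝ)) - 20 ≤ c.w 0 2; push_cast; linarith [p.1]),
        w_up (s := 19) (t := 40) (by show c.D 0 2 ≤ ((40 : ℕ) : ℝ) - 20; push_cast; linarith [p.2.1]), trivial⟩)
    · exact Or.inl ⟨w_up (s := 16) (t := 0) (by show c.w 0 2 ≤ ((0 : ℕ) : ℝ) - 20; push_cast; linarith),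
        w_up (s := 17) (t := 20) (by show c.X 0 2 1 ≤ ((20 : ℕ) : ℝ) - 20; push_cast; linarith),
        w_up (s := 18) (t := 20) (by show c.X 0 2 3 ≤ ((20 : ℕ) : ℝ) - 20; push_cast; linarith),
        w_lo (s := 19) (t := 60) (by show (((60 : ℕ) : ℝ)) - 20 ≤ c.D 0 2; push_cast; linarith), trivial⟩
  | 15, _ => by
    rcases cell_or h (m := 3) (r := 1) (z := 2) (by decide) with p | ⟨p1, p2, p3, p4⟩
    · exact Or.inr (Or.inl ⟨w_lo (s := 20) (t := 20) (by show (((20 : ℕ) : ℝ)) - 20 ≤ c.w 0 3; push_cast; linarith [p.1]),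
        w_up (s := 23) (t := 40) (by show c.D 0 3 ≤ ((40 : ℕ) : ℝ) - 20; push_cast; linarith [p.2.1]), trivial⟩)
    · exact Or.inl ⟨w_up (s := 20) (t := 0) (by show c.w 0 3 ≤ ((0 : ℕ) : ℝ) - 20; push_cast; linarith),
        w_up (s := 21) (t := 20) (by show c.X 0 3 1 ≤ ((20 : ℕ) : ℝ) - 20; push_cast; linarith),
        w_up (s := 22) (t := 20) (by show c.X 0 3 2 ≤ ((20 : ℕ) : ℝ) - 20; push_cast; linarith),
        w_lo (s := 23) (t := 60) (by show (((60 : ℕ) : ℝ)) - 20 ≤ c.D 0 3; push_cast; linarith), trivial⟩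
  | k + 16, _ => by
    rw [dj1_big]
    exact Or.inl trivial

/-- **The boxes of the slots.** -/
theorem box1 (h : OkU1 c) : ∀ s, s < 34 →
    ((nth 0 lo1 s : ℕ) : ℝ) - 20 ≤ s1 c s ∧ s1 c s ≤ ((nth 0 hi1 s : ℕ) : ℝ) - 20 := by
  have s2 := h.vs 2 0 1 3 (Or.inl rfl) (by decide)
  have s3 := h.vs 3 0 1 2 (Or.inr rfl) (by decide)
  have e2 := h.e0 2 (Or.inl rfl)
  have e3 := h.e0 3 (Or.inr rfl)
  have es := h.es
  have l20 := h.lo 2 0 (Or.inl rfl) (by decide)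
  have l21 := h.lo 2 1 (Or.inl rfl) (by decide)
  have l23 := h.lo 2 3 (Or.inl rfl) (by decide)
  have l30 := h.lo 3 0 (Or.inr rfl) (by decide)
  have l31 := h.lo 3 1 (Or.inr rfl) (by decide)
  have l32 := h.lo 3 2 (Or.inr rfl) (by decide)
  have u20 := h.hi 2 0 (Or.inl rfl) (by decide)
  have u21 := h.hi 2 1 (Or.inl rfl) (by decide)
  have u23 := h.hi 2 3 (Or.inl rfl) (by decide)
  have u30 := h.hi 3 0 (Or.inr rfl) (by decide)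
  have u31 := h.hi 3 1 (Or.inr rfl) (by decide)
  have u32 := h.hi 3 2 (Or.inr rfl) (by decide)
  have tu := h.tu
  obtain ⟨te0, te1⟩ := h.te
  obtain ⟨tx0, tx1⟩ := h.tx
  obtain ⟨tb0, tb1⟩ := h.tb
  obtain ⟨tw0, tw1, tw2⟩ := h.tw
  have tf := h.tf
  have tfw := tf.w1
  have tfX := tf.X0
  have tfY := tf.Y0
  have tfD := tf.D0
  have tfE := tf.D1
  have tfs := tf.sum
  have c1 : -20 ≤ c.w 0 1 ∧ c.w 0 1 ≤ 20 ∧ 0 ≤ c.X 0 1 2 ∧ c.X 0 1 2 ≤ 40 ∧ 0 ≤ c.X 0 1 3 ∧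
      c.X 0 1 3 ≤ 40 ∧ 0 ≤ c.D 0 1 ∧ c.D 0 1 ≤ 40 := by
    rcases cell_or h (m := 1) (r := 2) (z := 3) (by decide) with ⟨p1, p2, p3, p4, p5, p6, p7⟩ |
      ⟨p1, p2, p3, p4⟩ <;> refine ⟨?_, ?_, ?_, ?_, ?_, ?_, ?_, ?_⟩ <;> linarith
  obtain ⟨c1a, c1b, c1c, c1d, c1e, c1f, c1g, c1h⟩ := c1
  have c2 : -20 ≤ c.w 0 2 ∧ c.w 0 2 ≤ 20 ∧ 0 ≤ c.X 0 2 1 ∧ c.X 0 2 1 ≤ 40 ∧ 0 ≤ c.X 0 2 3 ∧
      c.X 0 2 3 ≤ 40 ∧ 0 ≤ c.D 0 2 ∧ c.D 0 2 ≤ 40 := by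
    rcases cell_or h (m := 2) (r := 1) (z := 3) (by decide) with ⟨p1, p2, p3, p4, p5, p6, p7⟩ |
      ⟨p1, p2, p3, p4⟩ <;> refine ⟨?_, ?_, ?_, ?_, ?_, ?_, ?_, ?_⟩ <;> linarith
  obtain ⟨c2a, c2b, c2c, c2d, c2e, c2f, c2g, c2h⟩ := c2
  have c3 : -20 ≤ c.w 0 3 ∧ c.w 0 3 ≤ 20 ∧ 0 ≤ c.X 0 3 1 ∧ c.X 0 3 1 ≤ 40 ∧ 0 ≤ c.X 0 3 2 ∧
      c.X 0 3 2 ≤ 40 ∧ 0 ≤ c.D 0 3 ∧ c.D 0 3 ≤ 40 := by
    rcases cell_or h (m := 3) (r := 1) (z := 2) (by decide) with ⟨p1, p2, p3, p4, p5, p6, p7⟩ |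
      ⟨p1, p2, p3, p4⟩ <;> refine ⟨?_, ?_, ?_, ?_, ?_, ?_, ?_, ?_⟩ <;> linarith
  obtain ⟨c3a, c3b, c3c, c3d, c3e, c3f, c3g, c3h⟩ := c3
  intro s hs
  match s, hs with
  | 0, _ =>
    show ((0 : ℕ) : ℝ) - 20 ≤ c.v 2 1 ∧ c.v 2 1 ≤ ((40 : ℕ) : ℝ) - 20
    push_cast
    constructor <;> linarith
  | 1, _ =>
    show ((0 : ℕ) : ℝ) - 20 ≤ c.v 2 3 ∧ c.v 2 3 ≤ ((40 : ℕ) : ℝ) - 20
    push_cast
    constructor <;> linarith
  | 2, _ =>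
    show ((0 : ℕ) : ℝ) - 20 ≤ c.v 2 0 ∧ c.v 2 0 ≤ ((40 : ℕ) : ℝ) - 20
    push_cast
    constructor <;> linarith
  | 3, _ =>
    show ((0 : ℕ) : ℝ) - 20 ≤ c.v 2 1 + c.v 2 3 ∧ c.v 2 1 + c.v 2 3 ≤ ((60 : ℕ) : ℝ) - 20
    push_cast
    constructor <;> linarith
  | 4, _ =>
    show ((0 : ℕ) : ℝ) - 20 ≤ c.v 2 3 + c.v 2 0 ∧ c.v 2 3 + c.v 2 0 ≤ ((60 : ℕ) : ℝ) - 20
    push_cast
    constructor <;> linarith
  | 5, _ =>
    show ((30 : ℕ) : ℝ) - 20 ≤ 20 - c.e 2 ∧ 20 - c.e 2 ≤ ((40 : ℕ) : ℝ) - 20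
    push_cast
    constructor <;> linarith
  | 6, _ =>
    show ((0 : ℕ) : ℝ) - 20 ≤ c.v 3 0 ∧ c.v 3 0 ≤ ((40 : ℕ) : ℝ) - 20
    push_cast
    constructor <;> linarith
  | 7, _ =>
    show ((0 : ℕ) : ℝ) - 20 ≤ c.v 3 2 ∧ c.v 3 2 ≤ ((40 : ℕ) : ℝ) - 20
    push_cast
    constructor <;> linarith
  | 8, _ =>
    show ((0 : ℕ) : ℝ) - 20 ≤ c.v 3 1 ∧ c.v 3 1 ≤ ((40 : ℕ) : ℝ) - 20
    push_cast
    constructor <;> linarith
  | 9, _ =>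
    show ((0 : ℕ) : ℝ) - 20 ≤ c.v 3 0 + c.v 3 2 ∧ c.v 3 0 + c.v 3 2 ≤ ((60 : ℕ) : ℝ) - 20
    push_cast
    constructor <;> linarith
  | 10, _ =>
    show ((0 : ℕ) : ℝ) - 20 ≤ c.v 3 2 + c.v 3 1 ∧ c.v 3 2 + c.v 3 1 ≤ ((60 : ℕ) : ℝ) - 20
    push_cast
    constructor <;> linarith
  | 11, _ =>
    show ((30 : ℕ) : ℝ) - 20 ≤ 20 - c.e 3 ∧ 20 - c.e 3 ≤ ((40 : ℕ) : ℝ) - 20
    push_cast
    constructor <;> linarith
  | 12, _ =>
    show ((0 : ℕ) : ℝ) - 20 ≤ c.w 0 1 ∧ c.w 0 1 ≤ ((40 : ℕ) : ℝ) - 20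
    push_cast
    constructor <;> linarith
  | 13, _ =>
    show ((20 : ℕ) : ℝ) - 20 ≤ c.X 0 1 2 ∧ c.X 0 1 2 ≤ ((60 : ℕ) : ℝ) - 20
    push_cast
    constructor <;> linarith
  | 14, _ =>
    show ((20 : ℕ) : ℝ) - 20 ≤ c.X 0 1 3 ∧ c.X 0 1 3 ≤ ((60 : ℕ) : ℝ) - 20
    push_cast
    constructor <;> linarith
  | 15, _ =>
    show ((20 : ℕ) : ℝ) - 20 ≤ c.D 0 1 ∧ c.D 0 1 ≤ ((60 : ℕ) : ℝ) - 20
    push_cast
    constructor <;> linarith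
  | 16, _ =>
    show ((0 : ℕ) : ℝ) - 20 ≤ c.w 0 2 ∧ c.w 0 2 ≤ ((40 : ℕ) : ℝ) - 20
    push_cast
    constructor <;> linarith
  | 17, _ =>
    show ((20 : ℕ) : ℝ) - 20 ≤ c.X 0 2 1 ∧ c.X 0 2 1 ≤ ((60 : ℕ) : ℝ) - 20
    push_cast
    constructor <;> linarith
  | 18, _ =>
    show ((20 : ℕ) : ℝ) - 20 ≤ c.X 0 2 3 ∧ c.X 0 2 3 ≤ ((60 : ℕ) : ℝ) - 20
    push_cast
    constructor <;> linarith
  | 19, _ =>
    show ((20 : ℕ) : ℝ) - 20 ≤ c.D 0 2 ∧ c.D 0 2 ≤ ((60 : ℕ) : ℝ) - 20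
    push_cast
    constructor <;> linarith
  | 20, _ =>
    show ((0 : ℕ) : ℝ) - 20 ≤ c.w 0 3 ∧ c.w 0 3 ≤ ((40 : ℕ) : ℝ) - 20
    push_cast
    constructor <;> linarith
  | 21, _ =>
    show ((20 : ℕ) : ℝ) - 20 ≤ c.X 0 3 1 ∧ c.X 0 3 1 ≤ ((60 : ℕ) : ℝ) - 20
    push_cast
    constructor <;> linarith
  | 22, _ =>
    show ((20 : ℕ) : ℝ) - 20 ≤ c.X 0 3 2 ∧ c.X 0 3 2 ≤ ((60 : ℕ) : ℝ) - 20
    push_cast
    constructor <;> linarith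
  | 23, _ =>
    show ((20 : ℕ) : ℝ) - 20 ≤ c.D 0 3 ∧ c.D 0 3 ≤ ((60 : ℕ) : ℝ) - 20
    push_cast
    constructor <;> linarith
  | 24, _ =>
    show ((33 : ℕ) : ℝ) - 20 ≤ c.w 1 2 ∧ c.w 1 2 ≤ ((40 : ℕ) : ℝ) - 20
    push_cast
    constructor <;> linarith
  | 25, _ =>
    show ((20 : ℕ) : ℝ) - 20 ≤ c.X 1 2 0 ∧ c.X 1 2 0 ≤ ((60 : ℕ) : ℝ) - 20
    push_cast
    constructor <;> linarith
  | 26, _ =>
    show ((20 : ℕ) : ℝ) - 20 ≤ c.X 1 2 3 ∧ c.X 1 2 3 ≤ ((60 : ℕ) : ℝ) - 20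
    push_cast
    constructor <;> linarith
  | 27, _ =>
    show ((20 : ℕ) : ℝ) - 20 ≤ c.D 1 2 ∧ c.D 1 2 ≤ ((40 : ℕ) : ℝ) - 20
    push_cast
    constructor <;> linarith
  | 28, _ =>
    show ((21 : ℕ) : ℝ) - 20 ≤ c.v 1 0 ∧ c.v 1 0 ≤ ((40 : ℕ) : ℝ) - 20
    push_cast
    constructor <;> linarith
  | 29, _ =>
    show ((21 : ℕ) : ℝ) - 20 ≤ c.v 1 3 ∧ c.v 1 3 ≤ ((40 : ℕ) : ℝ) - 20
    push_cast
    constructor <;> linarith
  | 30, _ =>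
    show ((0 : ℕ) : ℝ) - 20 ≤ c.v 1 2 ∧ c.v 1 2 ≤ ((7 : ℕ) : ℝ) - 20
    push_cast
    constructor <;> linarith
  | 31, _ =>
    show ((8 : ℕ) : ℝ) - 20 ≤ c.v 1 0 + c.v 1 2 ∧ c.v 1 0 + c.v 1 2 ≤ ((27 : ℕ) : ℝ) - 20
    push_cast
    constructor <;> linarith
  | 32, _ =>
    show ((8 : ℕ) : ℝ) - 20 ≤ c.v 1 3 + c.v 1 2 ∧ c.v 1 3 + c.v 1 2 ≤ ((27 : ℕ) : ℝ) - 20
    push_cast
    constructor <;> linarith
  | 33, _ =>
    show ((16 : ℕ) : ℝ) - 20 ≤ 20 - c.e 1 ∧ 20 - c.e 1 ≤ ((40 : ℕ) : ℝ) - 20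
    push_cast
    constructor <;> linarith
  | s + 34, hs => exact absurd hs (by omega)

end

end Pool.Agent.Helper83.NE
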